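import Mathlib
import Pool.Agent.R183.HoleGame
import Pool.Agent.R183.HoleGeom

/-!
# Breaker cannot win the bichromatic 4-hole game, whatever his bias

Maker first builds `s + 1` pairs of her points lying on `s + 1` lines through a virtual point `Q`
which is protected because it lies on a line spanned by two placed points.  A point `Q'` very
close to `Q` then creates `s + 1` empty triangles which share only the vertex `Q'`.  Breaker can
spoil only `s` of them, and any empty Maker triangle extends to an empty quadrilateral.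
-/

namespace Pool.Agent.Results.MP_7f1c6c_co.FourHoles

open Pool.Agent.R183.HoleGame
open Filter Topology

theorem cr_comb (p q x y : Pt) (α β : ℝ) (h : α + β = 1) :
    cr p q (α • x + β • y) = α * cr p q x + β * cr p q y := by
  have hβ : β = 1 - α := by linarith
  subst hβ
  simp only [cr, Prod.fst_add, Prod.snd_add, Prod.smul_fst, Prod.smul_snd, smul_eq_mul]
  ring

theorem convex_side (p q : Pt) (σ : ℝ) : Convex ℝ {x : Pt | 0 ≤ σ * cr p q x} := by
  intro x hx y hy α β hα hβ hαβ
  have hx' : 0 ≤ σ * cr p q x := hx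
  have hy' : 0 ≤ σ * cr p q y := hy
  show 0 ≤ σ * cr p q (α • x + β • y)
  rw [cr_comb p q x y α β hαβ]
  have h1 := mul_nonneg hα hx'
  have h2 := mul_nonneg hβ hy'
  nlinarith

theorem convex_line (p q : Pt) : Convex ℝ {x : Pt | cr p q x = 0} := by
  intro x hx y hy α β hα hβ hαβ
  have hx' : cr p q x = 0 := hx
  have hy' : cr p q y = 0 := hy
  show cr p q (α • x + β • y) = 0
  rw [cr_comb p q x y α β hαβ, hx', hy']
  ring

theorem isHole_of (k : ℕ) (P H : Finset Pt) (hsub : H ⊆ P) (hcard : H.card = k) (hk : 2 ≤ k)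
    (h1 : ∀ x ∈ H, x ∉ convexHull ℝ ((H : Set Pt) \ {x}))
    (h2 : ∀ x ∈ P, x ∉ H → x ∉ convexHull ℝ (H : Set Pt)) : IsHole k P H := by
  refine ⟨hsub, hcard, ?_, ?_⟩
  · have := (convexIndependent_set_iff_notMem_convexHull_sdiff (𝕜 := ℝ) (s := (H : Set Pt))).2
      (fun x hx => h1 x hx)
    exact this
  · intro x hx hint
    by_cases hxH : x ∈ H
    · have hne : ∃ y ∈ (H : Set Pt), y ≠ x := by
        obtain ⟨y, hy, hyx⟩ := Finset.exists_mem_ne (by omega : 1 < H.card) x
        exact ⟨y, hy, hyx⟩
      exact vertex_notMem_interior (H : Set Pt) H.finite_toSet x hxH hne (h1 x hxH) hint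
    · exact h2 x hx hxH (interior_subset hint)

/-- An empty triangle of Maker, on Maker's turn, gives a 4-hole at once. -/
theorem finish (s : ℕ) (M P : Finset Pt) (hMP : M ⊆ P) (hg : GenPos P) (a b c : Pt)
    (ha : a ∈ M) (hb : b ∈ M) (hc : c ∈ M) (hab : a ≠ b) (hac : a ≠ c) (hbc : b ≠ c)
    (he : ∀ x ∈ P, x ≠ a → x ≠ b → x ≠ c → x ∉ convexHull ℝ ({a, b, c} : Set Pt)) :
    MW 4 s M P := by
  have haP := hMP ha
  have hbP := hMP hb
  have hcP := hMP hc
  have hne : cr a b c ≠ 0 := hg.cr_ne haP hbP hcP hab hac hbc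
  set m : Pt := (1 / 2 : ℝ) • b + (1 / 2 : ℝ) • c with hm
  set v : Pt := m - a with hv
  set w : Pt := c - b with hw
  have hvw : v.1 * w.2 - v.2 * w.1 = cr a b c := by
    simp only [hv, hw, hm, cr, Prod.fst_add, Prod.snd_add, Prod.smul_fst, Prod.smul_snd,
      Prod.fst_sub, Prod.snd_sub, smul_eq_mul]
    ring
  have hvw0 : v.1 * w.2 - v.2 * w.1 ≠ 0 := by rw [hvw]; exact hne
  -- conditions near m
  have hmm1 : cr b c m = 0 := by
    simp only [hm, cr, Prod.fst_add, Prod.snd_add, Prod.smul_fst, Prod.smul_snd, smul_eq_mul]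
    ring
  have e1 : ∀ᶠ d in 𝓝 m, a ∉ convexHull ℝ (insert d (({b, c} : Finset Pt) : Set Pt)) := by
    apply hull_stable
    intro hcon
    have hsub : convexHull ℝ (insert m (({b, c} : Finset Pt) : Set Pt)) ⊆
        {x | cr b c x = 0} := by
      apply convexHull_min _ (convex_line b c)
      intro y hy
      simp only [Finset.coe_insert, Finset.coe_singleton, Set.mem_insert_iff,
        Set.mem_singleton_iff] at hy
      rcases hy with rfl | rfl | rfl
      · exact hmm1
      · exact cr_mid _ _
      · exact cr_right _ _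
    have : cr b c a = 0 := hsub hcon
    apply hne
    rw [← cr_rot a b c]
    exact this
  have hmid : ∀ p q : Pt, cr p q m = (1 / 2 : ℝ) * cr p q b + (1 / 2 : ℝ) * cr p q c := by
    intro p q
    rw [hm, cr_comb p q b c _ _ (by norm_num)]
  have hamc : cr a m c = (1 / 2 : ℝ) * cr a b c := by
    rw [cr_swap, hmid, cr_swap, cr_right]; ring
  have hamb : cr a m b = - ((1 / 2 : ℝ) * cr a b c) := by
    rw [cr_swap, hmid, cr_right]; ring
  have hsq : 0 < cr a b c * cr a b c := mul_self_pos.2 hne
  have e2 : ∀ᶠ d in 𝓝 m, b ∉ convexHull ℝ (insert d (({a, c} : Finset Pt) : Set Pt)) := by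
    apply hull_stable
    intro hcon
    have hsub : convexHull ℝ (insert m (({a, c} : Finset Pt) : Set Pt)) ⊆
        {x | 0 ≤ cr a b c * cr a m x} := by
      apply convexHull_min _ (convex_side a m _)
      intro y hy
      simp only [Finset.coe_insert, Finset.coe_singleton, Set.mem_insert_iff,
        Set.mem_singleton_iff] at hy
      rcases hy with rfl | rfl | rfl
      · show 0 ≤ cr a b c * cr a m m
        rw [cr_right]; simp
      · show 0 ≤ cr y b c * cr y m y
        rw [cr_mid]; simp
      · show 0 ≤ cr a b y * cr a m y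
        rw [hamc]; nlinarith
    have : 0 ≤ cr a b c * cr a m b := hsub hcon
    rw [hamb] at this
    nlinarith
  have e3 : ∀ᶠ d in 𝓝 m, c ∉ convexHull ℝ (insert d (({a, b} : Finset Pt) : Set Pt)) := by
    apply hull_stable
    intro hcon
    have hsub : convexHull ℝ (insert m (({a, b} : Finset Pt) : Set Pt)) ⊆
        {x | 0 ≤ (- cr a b c) * cr a m x} := by
      apply convexHull_min _ (convex_side a m _)
      intro y hy
      simp only [Finset.coe_insert, Finset.coe_singleton, Set.mem_insert_iff,
        Set.mem_singleton_iff] at hy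
      rcases hy with rfl | rfl | rfl
      · show 0 ≤ (- cr a b c) * cr a m m
        rw [cr_right]; simp
      · show 0 ≤ (- cr y b c) * cr y m y
        rw [cr_mid]; simp
      · show 0 ≤ (- cr a y c) * cr a m y
        rw [hamb]; nlinarith
    have : 0 ≤ (- cr a b c) * cr a m c := hsub hcon
    rw [hamc] at this
    nlinarith
  have e4 : ∀ᶠ d in 𝓝 m, ∀ x ∈ P, x ≠ a → x ≠ b → x ≠ c →
      x ∉ convexHull ℝ (insert d (({a, b, c} : Finset Pt) : Set Pt)) := by
    rw [Filter.eventually_all_finset]
    intro x hx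
    by_cases hxa : x = a
    · exact Eventually.of_forall fun _ h => absurd hxa h
    by_cases hxb : x = b
    · exact Eventually.of_forall fun _ _ h => absurd hxb h
    by_cases hxc : x = c
    · exact Eventually.of_forall fun _ _ _ h => absurd hxc h
    have := hull_stable ({a, b, c} : Finset Pt) m x (by
      intro hcon
      apply he x hx hxa hxb hxc
      have hsub : convexHull ℝ (insert m (({a, b, c} : Finset Pt) : Set Pt)) ⊆
          convexHull ℝ ({a, b, c} : Set Pt) := by
        apply convexHull_min _ (convex_convexHull ℝ _)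
        intro y hy
        simp only [Finset.coe_insert, Finset.coe_singleton] at hy
        rcases hy with rfl | hy
        · exact (convex_convexHull ℝ ({a, b, c} : Set Pt))
            (subset_convexHull ℝ _ (by simp)) (subset_convexHull ℝ _ (by simp))
            (by norm_num) (by norm_num) (by norm_num)
        · exact subset_convexHull ℝ _ hy
      exact hsub hcon)
    filter_upwards [this] with d hd _ _ _
    exact hd
  have e5 : ∀ᶠ t : ℝ in 𝓝[>] 0, (0 : ℝ) < t := self_mem_nhdsWithin
  have hcurve := curve_tendsto m v w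
  obtain ⟨t, ⟨⟨hdP, hgen⟩, h1, h2, h3, h4⟩, ht⟩ :=
    (((curve_legal P m v w hvw0).and ((hcurve.eventually e1).and ((hcurve.eventually e2).and
      ((hcurve.eventually e3).and (hcurve.eventually e4))))).and e5).exists
  set d : Pt := m + t • v + t ^ 2 • w with hd
  have hcrd : cr b c d = - (t * cr a b c) := by
    simp only [hd, hv, hw, hm, cr, Prod.fst_add, Prod.snd_add, Prod.smul_fst, Prod.smul_snd,
      Prod.fst_sub, Prod.snd_sub, smul_eq_mul]
    ring
  have h5 : d ∉ convexHull ℝ ({a, b, c} : Set Pt) := by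
    intro hcon
    have hsub : convexHull ℝ ({a, b, c} : Set Pt) ⊆ {x | 0 ≤ cr a b c * cr b c x} := by
      apply convexHull_min _ (convex_side b c _)
      intro y hy
      simp only [Set.mem_insert_iff, Set.mem_singleton_iff] at hy
      rcases hy with rfl | rfl | rfl
      · show 0 ≤ cr y b c * cr b c y
        rw [cr_rot y b c]; exact hsq.le
      · show 0 ≤ cr a y c * cr y c y
        rw [cr_mid]; simp
      · show 0 ≤ cr a b y * cr b y y
        rw [cr_right]; simp
    have : 0 ≤ cr a b c * cr b c d := hsub hcon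
    rw [hcrd] at this
    nlinarith [mul_pos ht hsq]
  have hda : d ≠ a := fun h => hdP (h ▸ haP)
  have hdb : d ≠ b := fun h => hdP (h ▸ hbP)
  have hdc : d ≠ c := fun h => hdP (h ▸ hcP)
  refine MW.now M P d (insert d {a, b, c}) hdP (hg.insert hgen) ?_ ?_
  · intro y hy
    simp only [Finset.mem_insert, Finset.mem_singleton] at hy ⊢
    rcases hy with rfl | rfl | rfl | rfl
    · exact Or.inl rfl
    · exact Or.inr ha
    · exact Or.inr hb
    · exact Or.inr hc
  · apply isHole_of 4 _ _ _ _ (by norm_num)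
    · intro x hx
      have hx' : x = d ∨ x = a ∨ x = b ∨ x = c := by simpa using hx
      intro hcon
      rcases hx' with h | h | h | h
      · subst h
        apply h5
        refine convexHull_mono ?_ hcon
        rintro y ⟨hy, hyx⟩
        simp only [Finset.coe_insert, Finset.coe_singleton, Set.mem_insert_iff,
          Set.mem_singleton_iff] at hy hyx ⊢
        tauto
      · subst h
        apply h1
        refine convexHull_mono ?_ hcon
        rintro y ⟨hy, hyx⟩
        simp only [Finset.coe_insert, Finset.coe_singleton, Set.mem_insert_iff,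
          Set.mem_singleton_iff] at hy hyx ⊢
        tauto
      · subst h
        apply h2
        refine convexHull_mono ?_ hcon
        rintro y ⟨hy, hyx⟩
        simp only [Finset.coe_insert, Finset.coe_singleton, Set.mem_insert_iff,
          Set.mem_singleton_iff] at hy hyx ⊢
        tauto
      · subst h
        apply h3
        refine convexHull_mono ?_ hcon
        rintro y ⟨hy, hyx⟩
        simp only [Finset.coe_insert, Finset.coe_singleton, Set.mem_insert_iff,
          Set.mem_singleton_iff] at hy hyx ⊢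
        tauto
    · intro x hx hxH hcon
      simp only [Finset.mem_insert, Finset.mem_singleton, not_or] at hx hxH
      rcases hx with rfl | hx
      · exact hxH.1 rfl
      · apply h4 x hx hxH.2.1 hxH.2.2.1 hxH.2.2.2
        simpa only [Finset.coe_insert] using hcon
    · intro y hy
      simp only [Finset.mem_insert, Finset.mem_singleton] at hy ⊢
      rcases hy with rfl | rfl | rfl | rfl
      · exact Or.inl rfl
      · exact Or.inr haP
      · exact Or.inr hbP
      · exact Or.inr hcP
    · rw [Finset.card_insert_of_notMem (by simp [hda, hdb, hdc]),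
        Finset.card_insert_of_notMem (by simp [hab, hac]),
        Finset.card_insert_of_notMem (by simp [hbc])]
      simp

/-- Maker can wait until she owns many points. -/
theorem phase1 (s N : ℕ)
    (hN : ∀ M P : Finset Pt, M ⊆ P → GenPos P → N ≤ M.card → MW 4 s M P) :
    ∀ (n : ℕ) (M P : Finset Pt), M ⊆ P → GenPos P → N ≤ M.card + n → MW 4 s M P := by
  intro n
  induction n with
  | zero => intro M P h1 h2 h3; exact hN M P h1 h2 (by omega)
  | succ n ih =>
    intro M P h1 h2 h3
    obtain ⟨d, hd, hgen, _⟩ := exists_near P (0, 0) (φ := fun _ => True)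
      (Eventually.of_forall fun _ => trivial)
    refine MW.later M P d hd (h2.insert hgen) ?_
    intro R _ _ hgR
    apply ih _ _ _ hgR
    · rw [Finset.card_insert_of_notMem (fun h => hd (h1 h))]; omega
    · intro y hy
      rw [Finset.mem_insert] at hy
      rw [Finset.mem_union, Finset.mem_insert]
      rcases hy with h | h
      · exact Or.inl (Or.inl h)
      · exact Or.inl (Or.inr (h1 h))

/-- Maker owns `c` and another point of the open segment between `Q` and `c`. -/
def Done (Q : Pt) (M : Finset Pt) (c : Pt) : Prop :=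
  c ∈ M ∧ ∃ d ∈ M, ∃ t : ℝ, 0 < t ∧ t < 1 ∧ d = Q + t • (c - Q)

theorem cone_convex (q u v : Pt) :
    Convex ℝ {x : Pt | ∃ α β : ℝ, 0 ≤ α ∧ 0 ≤ β ∧ x = q + α • (u - q) + β • (v - q)} := by
  rintro x ⟨α, β, hα, hβ, rfl⟩ y ⟨α', β', hα', hβ', rfl⟩ a b ha hb hab
  refine ⟨a * α + b * α', a * β + b * β', by positivity, by positivity, ?_⟩
  have hb' : b = 1 - a := by linarith
  subst hb'
  apply Prod.ext
  · simp only [Prod.fst_add, Prod.smul_fst, Prod.fst_sub, smul_eq_mul]; ring
  · simp only [Prod.snd_add, Prod.smul_snd, Prod.snd_sub, smul_eq_mul]; ring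

theorem mem_cone (q u v x : Pt) (h : x ∈ convexHull ℝ ({q, u, v} : Set Pt)) :
    ∃ α β : ℝ, 0 ≤ α ∧ 0 ≤ β ∧ x = q + α • (u - q) + β • (v - q) := by
  have hsub : convexHull ℝ ({q, u, v} : Set Pt) ⊆
      {x : Pt | ∃ α β : ℝ, 0 ≤ α ∧ 0 ≤ β ∧ x = q + α • (u - q) + β • (v - q)} := by
    apply convexHull_min _ (cone_convex q u v)
    rintro y (rfl | rfl | rfl)
    · exact ⟨0, 0, le_rfl, le_rfl, by simp⟩
    · exact ⟨1, 0, zero_le_one, le_rfl, by simp⟩
    · exact ⟨0, 1, le_rfl, zero_le_one, by simp⟩
  exact hsub h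

theorem cone_disjoint (q u v u' v' x : Pt) (σ : ℝ) (h1 : 0 < σ * cr q u u')
    (h2 : 0 < σ * cr q u v') (h3 : 0 < σ * cr q v u') (h4 : 0 < σ * cr q v v')
    (hx : x ∈ convexHull ℝ ({q, u, v} : Set Pt)) (hx' : x ∈ convexHull ℝ ({q, u', v'} : Set Pt)) :
    x = q := by
  obtain ⟨α, β, hα, hβ, e⟩ := mem_cone q u v x hx
  obtain ⟨α', β', hα', hβ', e'⟩ := mem_cone q u' v' x hx'
  have a1 : x.1 - q.1 = α * (u.1 - q.1) + β * (v.1 - q.1) := by
    have := congrArg Prod.fst e
    simp only [Prod.fst_add, Prod.smul_fst, Prod.fst_sub, smul_eq_mul] at this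
    linarith
  have a2 : x.2 - q.2 = α * (u.2 - q.2) + β * (v.2 - q.2) := by
    have := congrArg Prod.snd e
    simp only [Prod.snd_add, Prod.smul_snd, Prod.snd_sub, smul_eq_mul] at this
    linarith
  have a3 : x.1 - q.1 = α' * (u'.1 - q.1) + β' * (v'.1 - q.1) := by
    have := congrArg Prod.fst e'
    simp only [Prod.fst_add, Prod.smul_fst, Prod.fst_sub, smul_eq_mul] at this
    linarith
  have a4 : x.2 - q.2 = α' * (u'.2 - q.2) + β' * (v'.2 - q.2) := by
    have := congrArg Prod.snd e'
    simp only [Prod.snd_add, Prod.smul_snd, Prod.snd_sub, smul_eq_mul] at this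
    linarith
  have key : (α * α') * (σ * cr q u u') + (α * β') * (σ * cr q u v') +
      (β * α') * (σ * cr q v u') + (β * β') * (σ * cr q v v') = 0 := by
    have : σ * ((x.1 - q.1) * (x.2 - q.2) - (x.2 - q.2) * (x.1 - q.1)) = 0 := by ring
    rw [show (x.1 - q.1) * (x.2 - q.2) - (x.2 - q.2) * (x.1 - q.1) =
      (α * (u.1 - q.1) + β * (v.1 - q.1)) * (α' * (u'.2 - q.2) + β' * (v'.2 - q.2)) -
      (α * (u.2 - q.2) + β * (v.2 - q.2)) * (α' * (u'.1 - q.1) + β' * (v'.1 - q.1)) from by
        rw [← a1, ← a2, ← a3, ← a4]] at this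
    unfold cr
    linarith
  have p1 := mul_nonneg (mul_nonneg hα hα') h1.le
  have p2 := mul_nonneg (mul_nonneg hα hβ') h2.le
  have p3 := mul_nonneg (mul_nonneg hβ hα') h3.le
  have p4 := mul_nonneg (mul_nonneg hβ hβ') h4.le
  have z1 : α * α' = 0 := by
    have : (α * α') * (σ * cr q u u') = 0 := by linarith
    rcases mul_eq_zero.1 this with h | h
    · exact h
    · exact absurd h h1.ne'
  have z2 : α * β' = 0 := by
    have : (α * β') * (σ * cr q u v') = 0 := by linarith
    rcases mul_eq_zero.1 this with h | h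
    · exact h
    · exact absurd h h2.ne'
  have z3 : β * α' = 0 := by
    have : (β * α') * (σ * cr q v u') = 0 := by linarith
    rcases mul_eq_zero.1 this with h | h
    · exact h
    · exact absurd h h3.ne'
  have z4 : β * β' = 0 := by
    have : (β * β') * (σ * cr q v v') = 0 := by linarith
    rcases mul_eq_zero.1 this with h | h
    · exact h
    · exact absurd h h4.ne'
  by_cases ha : α = 0
  · by_cases hb : β = 0
    · rw [e, ha, hb]; simp
    · have h5 : α' = 0 := (mul_eq_zero.1 z3).resolve_left hb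
      have h6 : β' = 0 := (mul_eq_zero.1 z4).resolve_left hb
      rw [e', h5, h6]; simp
  · have h5 : α' = 0 := (mul_eq_zero.1 z1).resolve_left ha
    have h6 : β' = 0 := (mul_eq_zero.1 z2).resolve_left ha
    rw [e', h5, h6]; simp

/-- With `s + 1` completed lines through `Q`, Maker wins. -/
theorem phase3 (s : ℕ) (Q : Pt) (C M P : Finset Pt) (hMP : M ⊆ P) (hg : GenPos P)
    (hdone : ∀ c ∈ C, Done Q M c) (hpair : ∀ c ∈ C, ∀ c' ∈ C, c ≠ c' → cr Q c c' ≠ 0)
    (hQ : ∀ c ∈ C, c ≠ Q) (hC : C.card = s + 1) : MW 4 s M P := by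
  have hex : ∀ c ∈ C, ∃ d ∈ M, ∃ t : ℝ, 0 < t ∧ t < 1 ∧ d = Q + t • (c - Q) :=
    fun c hc => (hdone c hc).2
  choose! d hdM t ht0 ht1 hd using hex
  have hcd : ∀ c ∈ C, c ≠ d c := by
    intro c hc h
    apply hQ c hc
    have h1 := hd c hc
    rw [← h] at h1
    have h2 : (1 - t c) • (c - Q) = 0 := by
      rw [sub_smul, one_smul]
      nth_rewrite 1 [h1]
      simp
    rcases smul_eq_zero.1 h2 with h3 | h3
    · linarith [ht1 c hc]
    · exact sub_eq_zero.1 h3
  have hline : ∀ c ∈ C, ∀ x ∈ P, x ≠ c → x ≠ d c → cr Q c x ≠ 0 := by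
    intro c hc x hx hxc hxd h0
    have h1 : cr c (d c) x ≠ 0 :=
      hg.cr_ne (hMP (hdone c hc).1) (hMP (hdM c hc)) hx (hcd c hc) hxc.symm hxd.symm
    apply h1
    have : cr c (d c) x = - (1 - t c) * cr Q c x := by
      rw [hd c hc]
      simp only [cr, Prod.fst_add, Prod.snd_add, Prod.smul_fst, Prod.smul_snd,
        Prod.fst_sub, Prod.snd_sub, smul_eq_mul]
      ring
    rw [this, h0, mul_zero]
  -- conditions near Q
  have e1 : ∀ᶠ q in 𝓝 Q, ∀ c ∈ C, ∀ x ∈ P, x ≠ c → x ≠ d c →
      x ∉ convexHull ℝ (insert q (({c, d c} : Finset Pt) : Set Pt)) := by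
    rw [Filter.eventually_all_finset]
    intro c hc
    rw [Filter.eventually_all_finset]
    intro x hx
    by_cases hxc : x = c
    · exact Eventually.of_forall fun _ h => absurd hxc h
    by_cases hxd : x = d c
    · exact Eventually.of_forall fun _ _ h => absurd hxd h
    have := hull_stable ({c, d c} : Finset Pt) Q x (by
      intro hcon
      apply hline c hc x hx hxc hxd
      have hsub : convexHull ℝ (insert Q (({c, d c} : Finset Pt) : Set Pt)) ⊆
          {x | cr Q c x = 0} := by
        apply convexHull_min _ (convex_line Q c)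
        intro y hy
        simp only [Finset.coe_insert, Finset.coe_singleton, Set.mem_insert_iff,
          Set.mem_singleton_iff] at hy
        rcases hy with rfl | rfl | rfl
        · exact cr_mid _ _
        · exact cr_right _ _
        · show cr Q c (d c) = 0
          rw [hd c hc]
          simp only [cr, Prod.fst_add, Prod.snd_add, Prod.smul_fst, Prod.smul_snd,
            Prod.fst_sub, Prod.snd_sub, smul_eq_mul]
          ring
      exact hsub hcon)
    filter_upwards [this] with y hy _ _
    exact hy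
  have hcont : ∀ u v : Pt, Continuous fun q : Pt => cr q u v := by
    intro u v
    unfold cr
    fun_prop
  have hval1 : ∀ c ∈ C, ∀ c' : Pt, cr Q (d c) c' = t c * cr Q c c' := by
    intro c hc c'
    rw [hd c hc]
    simp only [cr, Prod.fst_add, Prod.snd_add, Prod.smul_fst, Prod.smul_snd,
      Prod.fst_sub, Prod.snd_sub, smul_eq_mul]
    ring
  have hval2 : ∀ c' ∈ C, ∀ c : Pt, cr Q c (d c') = t c' * cr Q c c' := by
    intro c' hc c
    rw [hd c' hc]
    simp only [cr, Prod.fst_add, Prod.snd_add, Prod.smul_fst, Prod.smul_snd,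
      Prod.fst_sub, Prod.snd_sub, smul_eq_mul]
    ring
  have hpos : ∀ u v : Pt, ∀ σ : ℝ, 0 < σ * cr Q u v → ∀ᶠ q in 𝓝 Q, 0 < σ * cr q u v := by
    intro u v σ h
    have hc : Continuous fun q : Pt => σ * cr q u v := (hcont u v).const_mul σ |> fun h => h
    exact (hc.tendsto Q).eventually_const_lt h
  have e2 : ∀ᶠ q in 𝓝 Q, ∀ c ∈ C, ∀ c' ∈ C, c ≠ c' →
      (0 < cr Q c c' * cr q c c' ∧ 0 < cr Q c c' * cr q c (d c')) ∧
      (0 < cr Q c c' * cr q (d c) c' ∧ 0 < cr Q c c' * cr q (d c) (d c')) := by
    rw [Filter.eventually_all_finset]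
    intro c hc
    rw [Filter.eventually_all_finset]
    intro c' hc'
    by_cases hcc : c = c'
    · exact Eventually.of_forall fun _ h => absurd hcc h
    have hsq : 0 < cr Q c c' * cr Q c c' := mul_self_pos.2 (hpair c hc c' hc' hcc)
    have g1 := hpos c c' (cr Q c c') hsq
    have g2 := hpos c (d c') (cr Q c c') (by
      rw [hval2 c' hc' c]
      have := mul_pos (ht0 c' hc') hsq
      linarith)
    have g3 := hpos (d c) c' (cr Q c c') (by
      rw [hval1 c hc c']
      have := mul_pos (ht0 c hc) hsq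
      linarith)
    have g4 := hpos (d c) (d c') (cr Q c c') (by
      rw [hval1 c hc (d c'), hval2 c' hc' c]
      have := mul_pos (ht0 c hc) (mul_pos (ht0 c' hc') hsq)
      linarith)
    filter_upwards [g1, g2, g3, g4] with q k1 k2 k3 k4 _
    exact ⟨⟨k1, k2⟩, ⟨k3, k4⟩⟩
  obtain ⟨q, hqP, hqgen, h1, h2⟩ := exists_near P Q (e1.and e2)
  refine MW.later M P q hqP (hg.insert hqgen) ?_
  intro R hR hdisj hgR
  have hfree : ∃ c ∈ C, ∀ r ∈ R, r ∉ convexHull ℝ ({q, c, d c} : Set Pt) := by
    by_contra hcon
    push Not at hcon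
    choose! r hrR hrc using hcon
    obtain ⟨c, hc, c', hc', hcc, hrr⟩ :=
      Finset.exists_ne_map_eq_of_card_lt_of_maps_to (s := C) (t := R) (by omega)
        (f := r) (fun c hc => hrR c hc)
    obtain ⟨⟨k1, k2⟩, ⟨k3, k4⟩⟩ := h2 c hc c' hc' hcc
    have hx' : r c ∈ convexHull ℝ ({q, c', d c'} : Set Pt) := by
      rw [hrr]; exact hrc c' hc'
    have := cone_disjoint q c (d c) c' (d c') (r c) _ k1 k2 k3 k4 (hrc c hc) hx'
    have hmem := hrR c hc
    rw [this] at hmem
    exact Finset.disjoint_left.1 hdisj hmem (Finset.mem_insert_self _ _)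
  obtain ⟨c, hc, hfree⟩ := hfree
  have hcM := (hdone c hc).1
  apply finish s (insert q M) (insert q P ∪ R) _ hgR q c (d c) (Finset.mem_insert_self _ _)
    (Finset.mem_insert_of_mem hcM) (Finset.mem_insert_of_mem (hdM c hc))
    (fun h => hqP (h ▸ hMP hcM)) (fun h => hqP (h ▸ hMP (hdM c hc))) (hcd c hc)
  · intro x hx hxq hxc hxd
    rw [Finset.mem_union, Finset.mem_insert] at hx
    rcases hx with (hx | hx) | hx
    · exact absurd hx hxq
    · have := h1 c hc x hx hxc hxd
      simpa only [Finset.coe_insert, Finset.coe_singleton] using this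
    · exact hfree x hx
  · intro y hy
    rw [Finset.mem_insert] at hy
    rw [Finset.mem_union, Finset.mem_insert]
    rcases hy with h | h
    · exact Or.inl (Or.inl h)
    · exact Or.inl (Or.inr (hMP h))

/-- Maker completes lines through `Q` one after the other. -/
theorem phase2 (s : ℕ) (Q a0 b0 : Pt) (hQa : Q ≠ a0) (hQb : Q ≠ b0) (hab : a0 ≠ b0)
    (hQ0 : cr a0 b0 Q = 0) : ∀ (n : ℕ) (C I M P : Finset Pt), M ⊆ P → GenPos P → a0 ∈ P →
    b0 ∈ P → (∀ c ∈ C, Done Q M c) → (∀ c ∈ C, ∀ c' ∈ C, c ≠ c' → cr Q c c' ≠ 0) →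
    (∀ c ∈ C, c ≠ Q) → (∀ c ∈ I, c ∈ M ∧ c ≠ Q ∧ c ∉ C ∧ ∀ x ∈ P, x ≠ c → cr Q c x ≠ 0) →
    C.card + n = s + 1 → n * (s + 1) ≤ I.card → MW 4 s M P := by
  intro n
  induction n with
  | zero =>
    intro C I M P hMP hg _ _ hdone hpair hQC _ hC _
    exact phase3 s Q C M P hMP hg hdone hpair hQC (by omega)
  | succ n ih =>
    intro C I M P hMP hg ha0 hb0 hdone hpair hQC hI hC hIc
    have hIne : I.Nonempty := by
      rw [← Finset.card_pos]
      have : 1 ≤ (n + 1) * (s + 1) := Nat.succ_le_of_lt (by positivity)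
      omega
    obtain ⟨c, hc⟩ := hIne
    obtain ⟨hcM, hcQ, hcC, hcx⟩ := hI c hc
    -- choose the point on the segment
    have hev : ∀ᶠ t : ℝ in 𝓝[>] 0, (∀ p ∈ P, ∀ q ∈ P, p ≠ q → cr p q (c + t • (Q - c)) ≠ 0) ∧
        (∀ p ∈ P, c + t • (Q - c) ≠ p) := by
      refine Filter.Eventually.and ?_ ?_
      · rw [Filter.eventually_all_finset]
        intro p hp
        rw [Filter.eventually_all_finset]
        intro q hq
        by_cases hpq : p = q
        · exact Eventually.of_forall fun _ h => absurd hpq h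
        have hform : ∀ t : ℝ, cr p q (c + t • (Q - c)) =
            cr p q c + t * (cr p q Q - cr p q c) := by
          intro t
          simp only [cr, Prod.fst_add, Prod.snd_add, Prod.smul_fst, Prod.smul_snd,
            Prod.fst_sub, Prod.snd_sub, smul_eq_mul]
          ring
        by_cases hpc : p = c
        · subst hpc
          have hne : cr Q p q ≠ 0 := hcx q hq (Ne.symm hpq)
          filter_upwards [self_mem_nhdsWithin] with t ht _
          have ht' : (0 : ℝ) < t := ht
          rw [hform, cr_mid, zero_add, sub_zero]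
          refine mul_ne_zero ht'.ne' ?_
          rwa [cr_rot] 
        by_cases hqc : q = c
        · subst hqc
          have hne : cr Q q p ≠ 0 := hcx p hp hpq
          filter_upwards [self_mem_nhdsWithin] with t ht _
          have ht' : (0 : ℝ) < t := ht
          rw [hform, cr_right, zero_add, sub_zero]
          refine mul_ne_zero ht'.ne' ?_
          intro h
          apply hne
          have : cr Q q p = - cr p q Q := by unfold cr; ring
          rw [this, h, neg_zero]
        · have hne : cr p q c ≠ 0 := hg.cr_ne hp hq (hMP hcM) hpq hpc hqc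
          have hcont : Continuous fun t : ℝ => cr p q c + t * (cr p q Q - cr p q c) := by
            fun_prop
          have : ∀ᶠ t : ℝ in 𝓝 0, cr p q c + t * (cr p q Q - cr p q c) ≠ 0 := by
            apply hcont.continuousAt.eventually_ne
            simpa using hne
          filter_upwards [this.filter_mono nhdsWithin_le_nhds] with t ht _
          rw [hform]
          exact ht
      · rw [Filter.eventually_all_finset]
        intro p hp
        by_cases hpc : p = c
        · subst hpc
          filter_upwards [self_mem_nhdsWithin] with t ht h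
          have ht' : (0 : ℝ) < t := ht
          have : t • (Q - p) = 0 := by simpa using h
          rcases smul_eq_zero.1 this with h1 | h1
          · exact ht'.ne' h1
          · exact hcQ (sub_eq_zero.1 h1).symm
        · have hcont : Continuous fun t : ℝ => c + t • (Q - c) := by fun_prop
          have : ∀ᶠ t : ℝ in 𝓝 0, c + t • (Q - c) ≠ p := by
            apply hcont.continuousAt.eventually_ne
            simpa using Ne.symm hpc
          exact this.filter_mono nhdsWithin_le_nhds
    have hlt1 : ∀ᶠ t : ℝ in 𝓝[>] 0, t < 1 :=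
      (eventually_lt_nhds (zero_lt_one)).filter_mono nhdsWithin_le_nhds
    have hpos : ∀ᶠ t : ℝ in 𝓝[>] 0, (0 : ℝ) < t := self_mem_nhdsWithin
    obtain ⟨t, ⟨⟨hgen, hnew⟩, ht1⟩, ht0⟩ := ((hev.and hlt1).and hpos).exists
    set d : Pt := c + t • (Q - c) with hd
    have hd' : d = Q + (1 - t) • (c - Q) := by
      rw [hd]
      apply Prod.ext
      · simp only [Prod.fst_add, Prod.smul_fst, Prod.fst_sub, smul_eq_mul]; ring
      · simp only [Prod.snd_add, Prod.smul_snd, Prod.snd_sub, smul_eq_mul]; ring
    have hdP : d ∉ P := fun h => hnew d h rfl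
    refine MW.later M P d hdP (hg.insert hgen) ?_
    intro R hR hdisj hgR
    classical
    set P' := insert d P ∪ R with hP'
    have hPP' : P ⊆ P' := fun y hy =>
      Finset.mem_union_left _ (Finset.mem_insert_of_mem hy)
    set J := (I.erase c).filter (fun c' => ∀ r ∈ R, cr Q c' r ≠ 0) with hJ
    have hQR : Q ∉ R := by
      intro hQR
      have : cr a0 b0 Q ≠ 0 := hgR.cr_ne (hPP' ha0) (hPP' hb0)
        (Finset.mem_union_right _ hQR) hab hQa.symm hQb.symm
      exact this hQ0
    have hbad : ((I.erase c).filter (fun c' => ¬ ∀ r ∈ R, cr Q c' r ≠ 0)).card ≤ s := by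
      refine le_trans ?_ hR
      have hch : ∀ c' ∈ (I.erase c).filter (fun c' => ¬ ∀ r ∈ R, cr Q c' r ≠ 0),
          ∃ r ∈ R, cr Q c' r = 0 := by
        intro c' hc'
        rw [Finset.mem_filter] at hc'
        have := hc'.2
        push Not at this
        exact this
      choose! f hfR hf0 using hch
      apply Finset.card_le_card_of_injOn f (fun c' hc' => hfR c' hc')
      intro x hx y hy hxy
      by_contra hne
      have hx0 := hf0 x hx
      have hy0 := hf0 y hy
      rw [← hxy] at hy0
      have hxI : x ∈ I := Finset.mem_of_mem_erase (Finset.mem_filter.1 hx).1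
      have hyI : y ∈ I := Finset.mem_of_mem_erase (Finset.mem_filter.1 hy).1
      have hxy0 : cr Q x y ≠ 0 := (hI x hxI).2.2.2 y (hMP (hI y hyI).1) (Ne.symm hne)
      have hrQ : f x ≠ Q := fun h => hQR (h ▸ hfR x hx)
      apply hxy0
      set r := f x with hr
      unfold cr at hx0 hy0 ⊢
      have hne2 : r.1 - Q.1 ≠ 0 ∨ r.2 - Q.2 ≠ 0 := by
        by_contra hcon
        push Not at hcon
        exact hrQ (Prod.ext (by linarith) (by linarith))
      rcases hne2 with h | h
      · have e : (r.1 - Q.1) * ((x.1 - Q.1) * (y.2 - Q.2) - (x.2 - Q.2) * (y.1 - Q.1)) = 0 := by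
          have : (r.1 - Q.1) * ((x.1 - Q.1) * (y.2 - Q.2) - (x.2 - Q.2) * (y.1 - Q.1)) =
            (y.1 - Q.1) * ((x.1 - Q.1) * (r.2 - Q.2) - (x.2 - Q.2) * (r.1 - Q.1)) -
            (x.1 - Q.1) * ((y.1 - Q.1) * (r.2 - Q.2) - (y.2 - Q.2) * (r.1 - Q.1)) := by ring
          rw [this, hx0, hy0]; ring
        exact (mul_eq_zero.1 e).resolve_left h
      · have e : (r.2 - Q.2) * ((x.1 - Q.1) * (y.2 - Q.2) - (x.2 - Q.2) * (y.1 - Q.1)) = 0 := by
          have : (r.2 - Q.2) * ((x.1 - Q.1) * (y.2 - Q.2) - (x.2 - Q.2) * (y.1 - Q.1)) =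
            (y.2 - Q.2) * ((x.1 - Q.1) * (r.2 - Q.2) - (x.2 - Q.2) * (r.1 - Q.1)) -
            (x.2 - Q.2) * ((y.1 - Q.1) * (r.2 - Q.2) - (y.2 - Q.2) * (r.1 - Q.1)) := by ring
          rw [this, hx0, hy0]; ring
        exact (mul_eq_zero.1 e).resolve_left h
    have hJc : n * (s + 1) ≤ J.card := by
      have h1 : (I.erase c).card = I.card - 1 := Finset.card_erase_of_mem hc
      have h2 := Finset.card_filter_add_card_filter_not (s := I.erase c)
        (p := fun c' => ∀ r ∈ R, cr Q c' r ≠ 0)
      have h3 : (n + 1) * (s + 1) = n * (s + 1) + (s + 1) := by ring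
      have h4 : J.card + ((I.erase c).filter (fun c' => ¬ ∀ r ∈ R, cr Q c' r ≠ 0)).card =
          (I.erase c).card := by rw [← h2]
      omega
    apply ih (insert c C) J (insert d M) P' _ hgR (hPP' ha0) (hPP' hb0)
    · intro y hy
      rw [Finset.mem_insert] at hy
      rcases hy with rfl | hy
      · exact ⟨Finset.mem_insert_of_mem hcM, d, Finset.mem_insert_self _ _, 1 - t, by linarith,
          by linarith, hd'⟩
      · obtain ⟨h1, e, he, h2⟩ := hdone y hy
        exact ⟨Finset.mem_insert_of_mem h1, e, Finset.mem_insert_of_mem he, h2⟩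
    · intro x hx y hy hxy
      rw [Finset.mem_insert] at hx hy
      rcases hx with rfl | hx
      · rcases hy with rfl | hy
        · exact absurd rfl hxy
        · exact hcx y (hMP (hdone y hy).1) (Ne.symm hxy)
      · rcases hy with rfl | hy
        · have := hcx x (hMP (hdone x hx).1) hxy
          rw [cr_swap]
          exact neg_ne_zero.2 this
        · exact hpair x hx y hy hxy
    · intro y hy
      rw [Finset.mem_insert] at hy
      rcases hy with rfl | hy
      · exact hcQ
      · exact hQC y hy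
    · intro y hy
      rw [hJ, Finset.mem_filter, Finset.mem_erase] at hy
      obtain ⟨⟨hyc, hyI⟩, hyR⟩ := hy
      obtain ⟨h1, h2, h3, h4⟩ := hI y hyI
      refine ⟨Finset.mem_insert_of_mem h1, h2, ?_, ?_⟩
      · rw [Finset.mem_insert]
        rintro (h | h)
        · exact hyc h
        · exact h3 h
      · intro x hx hxy
        rw [hP', Finset.mem_union, Finset.mem_insert] at hx
        rcases hx with (rfl | hx) | hx
        · have h5 : cr Q y c ≠ 0 := h4 c (hMP hcM) (Ne.symm hyc)
          have h6 : cr Q y d = (1 - t) * cr Q y c := by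
            rw [hd']
            simp only [cr, Prod.fst_add, Prod.snd_add, Prod.smul_fst, Prod.smul_snd,
              Prod.fst_sub, Prod.snd_sub, smul_eq_mul]
            ring
          rw [h6]
          exact mul_ne_zero (by linarith) h5
        · exact h4 x hx hxy
        · exact hyR x hx
    · rw [Finset.card_insert_of_notMem hcC]; omega
    · exact hJc
    · intro y hy
      rw [Finset.mem_insert] at hy
      rcases hy with rfl | hy
      · exact Finset.mem_union_left _ (Finset.mem_insert_self _ _)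
      · exact hPP' (hMP hy)

theorem many_points (s : ℕ) (M P : Finset Pt) (hMP : M ⊆ P) (hg : GenPos P)
    (hcard : (s + 1) * (s + 1) + 2 ≤ M.card) : MW 4 s M P := by
  obtain ⟨a0, ha0, b0, hb0, hab⟩ := Finset.one_lt_card.1 (by omega : 1 < M.card)
  set I := (M.erase a0).erase b0 with hI
  have hIc : (s + 1) * (s + 1) ≤ I.card := by
    have h1 : (M.erase a0).card = M.card - 1 := Finset.card_erase_of_mem ha0
    have h2 : I.card = (M.erase a0).card - 1 :=
      Finset.card_erase_of_mem (Finset.mem_erase.2 ⟨hab.symm, hb0⟩)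
    omega
  have hev : ∀ᶠ t : ℝ in 𝓝[>] 0, ∀ c ∈ I, ∀ x ∈ P, x ≠ c →
      cr (a0 + t • (b0 - a0)) c x ≠ 0 := by
    rw [Filter.eventually_all_finset]
    intro c hc
    rw [Filter.eventually_all_finset]
    intro x hx
    by_cases hxc : x = c
    · exact Eventually.of_forall fun _ h => absurd hxc h
    rw [hI, Finset.mem_erase, Finset.mem_erase] at hc
    obtain ⟨hcb, hca, hcM⟩ := hc
    have hform : ∀ t : ℝ, cr (a0 + t • (b0 - a0)) c x =
        cr a0 c x + t * (cr b0 c x - cr a0 c x) := by
      intro t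
      simp only [cr, Prod.fst_add, Prod.snd_add, Prod.smul_fst, Prod.smul_snd,
        Prod.fst_sub, Prod.snd_sub, smul_eq_mul]
      ring
    by_cases hxa : x = a0
    · subst hxa
      have hne : cr b0 c x ≠ 0 := hg.cr_ne (hMP hb0) (hMP hcM) hx (Ne.symm hcb) hab.symm hca
      filter_upwards [self_mem_nhdsWithin] with t ht _
      have ht' : (0 : ℝ) < t := ht
      rw [hform, cr_mid, zero_add, sub_zero]
      exact mul_ne_zero ht'.ne' hne
    · have hne : cr a0 c x ≠ 0 := hg.cr_ne (hMP ha0) (hMP hcM) hx (Ne.symm hca) (Ne.symm hxa)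
        (Ne.symm hxc)
      have hcont : Continuous fun t : ℝ => cr a0 c x + t * (cr b0 c x - cr a0 c x) := by
        fun_prop
      have : ∀ᶠ t : ℝ in 𝓝 0, cr a0 c x + t * (cr b0 c x - cr a0 c x) ≠ 0 := by
        apply hcont.continuousAt.eventually_ne
        simpa using hne
      filter_upwards [this.filter_mono nhdsWithin_le_nhds] with t ht _
      rw [hform]
      exact ht
  have hlt1 : ∀ᶠ t : ℝ in 𝓝[>] 0, t < 1 :=
    (eventually_lt_nhds (zero_lt_one)).filter_mono nhdsWithin_le_nhds
  have hpos : ∀ᶠ t : ℝ in 𝓝[>] 0, (0 : ℝ) < t := self_mem_nhdsWithin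
  obtain ⟨t, ⟨hgood, ht1⟩, ht0⟩ := ((hev.and hlt1).and hpos).exists
  set Q : Pt := a0 + t • (b0 - a0) with hQ
  have hsub : b0 - a0 ≠ 0 := sub_ne_zero.2 hab.symm
  have hQa : Q ≠ a0 := by
    intro h
    have : t • (b0 - a0) = 0 := by simpa [hQ] using h
    rcases smul_eq_zero.1 this with h1 | h1
    · exact ht0.ne' h1
    · exact hsub h1
  have hQb : Q ≠ b0 := by
    intro h
    have h2 : (1 - t) • (b0 - a0) = 0 := by
      rw [sub_smul, one_smul]
      nth_rewrite 1 [← h]
      rw [hQ]
      simp
    rcases smul_eq_zero.1 h2 with h1 | h1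
    · linarith
    · exact hsub h1
  have hQ0 : cr a0 b0 Q = 0 := by
    rw [hQ]
    simp only [cr, Prod.fst_add, Prod.snd_add, Prod.smul_fst, Prod.smul_snd,
      Prod.fst_sub, Prod.snd_sub, smul_eq_mul]
    ring
  apply phase2 s Q a0 b0 hQa hQb hab hQ0 (s + 1) ∅ I M P hMP hg (hMP ha0) (hMP hb0)
    (by simp) (by simp) (by simp) _ (by simp) hIc
  intro c hc
  have hc' := hc
  rw [hI, Finset.mem_erase, Finset.mem_erase] at hc'
  obtain ⟨hcb, hca, hcM⟩ := hc'
  refine ⟨hcM, ?_, by simp, hgood c hc⟩
  intro h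
  have := hgood c hc a0 (hMP ha0) (Ne.symm hca)
  rw [h] at this
  exact this (cr_left _ _)

/-- For every bias `s`, Breaker has no winning strategy in the bichromatic Maker-Breaker
`4`-hole game with bias `1 : s`. -/
theorem result : ∀ s : ℕ, ¬ BreakerWins 4 s := by
  intro s
  apply MW.main
  exact phase1 s ((s + 1) * (s + 1) + 2) (fun M P h1 h2 h3 => many_points s M P h1 h2 h3)
    ((s + 1) * (s + 1) + 2) ∅ ∅ (by simp) (by intro p hp; simp at hp) (by simp)

end Pool.Agent.Results.MP_7f1c6c_co.FourHoles
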