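import Mathlib
import Pool.Agent.R183.HoleGame
import Pool.Agent.R183.HoleRing2

/-!
# Breaker wins the bichromatic k-hole game with bias 1 : 15 for every k at least 6

After each move `y` of Maker, Breaker first places two points next to the midpoint of the segment
from `y` to the last earlier Maker point whose protective disc contains `y` (if any), then fixes
a small protective disc around `y`, and finally surrounds `y` by a tiny ring of 13 points.
An angle count shows that among any five Maker points three span a triangle whose interior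
contains a Breaker point.
-/

namespace Pool.Agent.Results.MP_7f1c6c_co.SixHoles

open Pool.Agent.R183.HoleGame
open Filter Topology

/-- A strategy from an invariant. -/
theorem breakerWins_of_inv {S : Type} (k s : ℕ) (init : S) (M B : S → Finset Pt) (I : S → Prop)
    (h0 : I init) (hM0 : M init = ∅) (hB0 : B init = ∅)
    (hstep : ∀ st, I st → ∀ y, y ∉ M st ∪ B st → GenPos (insert y (M st) ∪ B st) →
      ∃ q : S × Finset Pt, I q.1 ∧ M q.1 = insert y (M st) ∧ B q.1 = B st ∪ q.2 ∧
        q.2.card ≤ s ∧ Disjoint q.2 (insert y (M st) ∪ B st) ∧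
        GenPos (insert y (M st) ∪ (B st ∪ q.2)))
    (h1 : ∀ st, I st → ∀ y, ¬ MakerHole k (insert y (M st)) (B st))
    (h2 : ∀ st, I st → ¬ MakerHole k (M st) (B st)) : BreakerWins k s := by
  classical
  have hex : ∀ (st : S) (y : Pt), ∃ q : S × Finset Pt, I st → y ∉ M st ∪ B st →
      GenPos (insert y (M st) ∪ B st) → (I q.1 ∧ M q.1 = insert y (M st) ∧
        B q.1 = B st ∪ q.2 ∧ q.2.card ≤ s ∧ Disjoint q.2 (insert y (M st) ∪ B st) ∧
        GenPos (insert y (M st) ∪ (B st ∪ q.2))) := by
    intro st y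
    by_cases hc : I st ∧ y ∉ M st ∪ B st ∧ GenPos (insert y (M st) ∪ B st)
    · obtain ⟨q, hq⟩ := hstep st hc.1 y hc.2.1 hc.2.2
      exact ⟨q, fun _ _ _ => hq⟩
    · exact ⟨(st, ∅), fun a b c => absurd ⟨a, b, c⟩ hc⟩
  choose nxt hnxt using hex
  set run : List Pt → S := fun l => l.foldr (fun y st => (nxt st y).1) init with hrun
  set τ : List Pt → Finset Pt := fun l =>
    match l.reverse with
    | [] => ∅
    | y :: l' => (nxt (run l') y).2 with hτ
  have hL : ∀ (x : ℕ → Pt) (n : ℕ), ((List.range (n + 1)).map x).reverse =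
      x n :: ((List.range n).map x).reverse := by
    intro x n
    rw [List.range_succ, List.map_append, List.reverse_append]
    rfl
  have hreply : ∀ (x : ℕ → Pt) (n : ℕ), reply τ x n =
      (nxt (run ((List.range n).map x).reverse) (x n)).2 := by
    intro x n
    unfold reply
    rw [hτ]
    simp only [hL]
  have hrunS : ∀ (x : ℕ → Pt) (n : ℕ), run ((List.range (n + 1)).map x).reverse =
      (nxt (run ((List.range n).map x).reverse) (x n)).1 := by
    intro x n
    rw [hL]
    rfl
  have key : ∀ (x : ℕ → Pt) (n : ℕ), (∀ i < n, MakerLegal τ x i) →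
      I (run ((List.range n).map x).reverse) ∧
      M (run ((List.range n).map x).reverse) = mPts x n ∧
      B (run ((List.range n).map x).reverse) = bPts τ x n := by
    intro x n
    induction n with
    | zero =>
      intro _
      refine ⟨h0, ?_, ?_⟩
      · rw [mPts]; exact hM0
      · rw [bPts]; exact hB0
    | succ n ih =>
      intro hl
      obtain ⟨i1, i2, i3⟩ := ih (fun i hi => hl i (by omega))
      obtain ⟨l1, l2⟩ := hl n (by omega)
      rw [mPts_succ] at l2
      have hq := hnxt (run ((List.range n).map x).reverse) (x n) i1 (by rw [i2, i3]; exact l1)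
        (by rw [i2, i3]; exact l2)
      obtain ⟨q1, q2, q3, _, _, _⟩ := hq
      rw [hrunS]
      refine ⟨q1, ?_, ?_⟩
      · rw [q2, i2, mPts_succ]
      · rw [q3, i3, bPts_succ, hreply, Finset.union_comm]
  refine ⟨τ, ?_⟩
  intro x n hl
  obtain ⟨i1, i2, i3⟩ := key x n (fun i hi => hl i (by omega))
  obtain ⟨l1, l2⟩ := hl n le_rfl
  rw [mPts_succ] at l2
  have hq := hnxt (run ((List.range n).map x).reverse) (x n) i1 (by rw [i2, i3]; exact l1)
    (by rw [i2, i3]; exact l2)
  obtain ⟨j1, j2, j3⟩ := key x (n + 1) (fun i hi => hl i (by omega))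
  obtain ⟨q1, q2, q3, q4, q5, q6⟩ := hq
  refine ⟨⟨?_, ?_, ?_⟩, ?_, ?_⟩
  · rw [hreply]; exact q4
  · rw [hreply, mPts_succ, ← i2, ← i3]; exact q5
  · rw [bPts_succ, hreply, mPts_succ, ← i2, ← i3, Finset.union_comm _ (B _)]
    exact q6
  · have := h1 _ i1 (x n)
    rw [i2, i3, ← mPts_succ] at this
    exact this
  · have := h2 _ j1
    rw [j2, j3] at this
    exact this

/-- The invariant kept by Breaker after his reply: Maker has played `x 0, ..., x (n - 1)`,
`B` is the set of Breaker's points, `η i` is the radius of the protective disc of `x i`. -/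
structure Inv (x : ℕ → Pt) (η : ℕ → ℝ) (B : Finset Pt) (n : ℕ) : Prop where
  gp : GenPos (mPts x n ∪ B)
  inj : ∀ i j, i < j → j < n → x i ≠ x j
  pos : ∀ i < n, 0 < η i
  sep : ∀ i j, i < j → j < n → x j ∉ Metric.closedBall (x i) (η i) →
    Disjoint (Metric.closedBall (x j) (η j)) (Metric.closedBall (x i) (η i))
  clu : ∀ a i j, a < i → i < j → j < n → x j ∈ Metric.closedBall (x i) (η i) →
    ∀ z ∈ Metric.closedBall (x j) (η j), ∃ r ∈ B, PosIn (x i) z (x a) r
  f1 : ∀ g h j, g < j → h < j → g ≠ h → j < n → Real.pi / 6 ≤ ang (x g - x j) (x h - x j) →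
    Hit B (x j) (x g) (x h)
  f2 : ∀ g h j, g < j → h < j → g ≠ h → j < n → ∀ z, z ∉ Metric.closedBall (x j) (η j) →
    Real.pi / 6 ≤ ang (z - x j) (x g - x j) → Real.pi / 6 ≤ ang (z - x j) (x h - x j) →
    Hit B (x j) z (x g) ∨ Hit B (x j) z (x h)

theorem Inv.congr {x x' : ℕ → Pt} {η η' : ℕ → ℝ} {B : Finset Pt} {n : ℕ} (h : Inv x η B n)
    (hx : ∀ i < n, x' i = x i) (hη : ∀ i < n, η' i = η i) : Inv x' η' B n := by
  have hm : mPts x' n = mPts x n := by
    unfold mPts
    apply Finset.image_congr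
    intro i hi
    exact hx i (Finset.mem_range.1 hi)
  refine ⟨?_, ?_, ?_, ?_, ?_, ?_, ?_⟩
  · rw [hm]; exact h.gp
  · intro i j hij hj
    rw [hx i (by omega), hx j hj]
    exact h.inj i j hij hj
  · intro i hi
    rw [hη i hi]
    exact h.pos i hi
  · intro i j hij hj
    rw [hx i (by omega), hx j hj, hη i (by omega), hη j hj]
    exact h.sep i j hij hj
  · intro a i j hai hij hj
    rw [hx a (by omega), hx i (by omega), hx j hj, hη i (by omega), hη j hj]
    exact h.clu a i j hai hij hj
  · intro g h' j hg hh hgh hj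
    rw [hx g (by omega), hx h' (by omega), hx j hj]
    exact h.f1 g h' j hg hh hgh hj
  · intro g h' j hg hh hgh hj
    rw [hx g (by omega), hx h' (by omega), hx j hj, hη j hj]
    exact h.f2 g h' j hg hh hgh hj

theorem hit_mono {R R' : Finset Pt} {p q w : Pt} (h : Hit R p q w) (hs : R ⊆ R') :
    Hit R' p q w := by
  obtain ⟨r, hr, h2⟩ := h
  exact ⟨r, hs hr, h2⟩

theorem mem_mPts {x : ℕ → Pt} {n i : ℕ} (h : i < n) : x i ∈ mPts x n :=
  Finset.mem_image_of_mem _ (Finset.mem_range.2 h)

/-- Breaker can keep the invariant. -/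
theorem step (x : ℕ → Pt) (η : ℕ → ℝ) (B : Finset Pt) (n : ℕ) (h : Inv x η B n)
    (hy : x n ∉ mPts x n ∪ B) (hg : GenPos (insert (x n) (mPts x n) ∪ B)) :
    ∃ (R : Finset Pt) (η' : ℝ), R.card ≤ 15 ∧ Disjoint R (insert (x n) (mPts x n) ∪ B) ∧
      Inv x (Function.update η n η') (B ∪ R) (n + 1) := by
  classical
  set y := x n with hyx
  set P0 := insert y (mPts x n) ∪ B with hP0
  have hyP0 : y ∈ P0 := Finset.mem_union_left _ (Finset.mem_insert_self _ _)
  have hmP0 : mPts x n ⊆ P0 := fun z hz =>
    Finset.mem_union_left _ (Finset.mem_insert_of_mem hz)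
  have hyM : y ∉ mPts x n := fun h0 => hy (Finset.mem_union_left _ h0)
  have hne : ∀ i < n, x i ≠ y := fun i hi h0 => hyM (h0 ▸ mem_mPts hi)
  -- part 1: the two points next to a midpoint
  have part1 : ∃ R1 : Finset Pt, R1.card ≤ 2 ∧ Disjoint R1 P0 ∧ GenPos (P0 ∪ R1) ∧
      ∀ p < n, y ∈ Metric.closedBall (x p) (η p) → ∀ a < p, ∃ r ∈ B ∪ R1,
        PosIn (x p) y (x a) r := by
    by_cases hex : ∃ p < n, y ∈ Metric.closedBall (x p) (η p)
    · have hne' : ((Finset.range n).filter
          (fun p => y ∈ Metric.closedBall (x p) (η p))).Nonempty := by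
        obtain ⟨p, hp, hyp⟩ := hex
        exact ⟨p, Finset.mem_filter.2 ⟨Finset.mem_range.2 hp, hyp⟩⟩
      obtain ⟨ps, hps, hmax⟩ := Finset.exists_max_image _ (fun p : ℕ => p) hne'
      rw [Finset.mem_filter, Finset.mem_range] at hps
      have hA : mPts x ps ⊆ P0 := by
        intro z hz
        unfold mPts at hz
        rw [Finset.mem_image] at hz
        obtain ⟨i, hi, rfl⟩ := hz
        exact hmP0 (mem_mPts ((Finset.mem_range.1 hi).trans hps.1))
      obtain ⟨R1, c1, c2, c3, c4⟩ := mid_exists P0 hg (x ps) y (hmP0 (mem_mPts hps.1)) hyP0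
        (hne ps hps.1) (mPts x ps) hA
        (by
          intro h0
          unfold mPts at h0
          rw [Finset.mem_image] at h0
          obtain ⟨i, hi, h1⟩ := h0
          exact h.inj i ps (Finset.mem_range.1 hi) hps.1 h1)
        (by
          intro h0
          unfold mPts at h0
          rw [Finset.mem_image] at h0
          obtain ⟨i, hi, h1⟩ := h0
          exact hne i ((Finset.mem_range.1 hi).trans hps.1) h1)
      refine ⟨R1, c1, c2, c3, ?_⟩
      intro p hp hyp a ha
      have hle : p ≤ ps := hmax p (Finset.mem_filter.2 ⟨Finset.mem_range.2 hp, hyp⟩)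
      rcases Nat.lt_or_eq_of_le hle with hlt | heq
      · have hin : x ps ∈ Metric.closedBall (x p) (η p) := by
          by_contra hcon
          exact Set.disjoint_left.1 (h.sep p ps hlt hps.1 hcon) hps.2 hyp
        obtain ⟨r, hr, h1⟩ := h.clu a p ps ha hlt hps.1 hin y hps.2
        exact ⟨r, Finset.mem_union_left _ hr, h1⟩
      · subst heq
        obtain ⟨r, hr, h1⟩ := c4 (x a) (mem_mPts ha)
        exact ⟨r, Finset.mem_union_right _ hr, h1⟩
    · refine ⟨∅, by simp, by simp, by simpa using hg, ?_⟩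
      intro p hp hyp
      exact absurd ⟨p, hp, hyp⟩ hex
  obtain ⟨R1, c1, c2, c3, c4⟩ := part1
  -- part 2: the protective disc
  have part2 : ∃ η' : ℝ, 0 < η' ∧ ∀ z ∈ Metric.closedBall y η',
      (∀ p ∈ Finset.range n, y ∉ Metric.closedBall (x p) (η p) →
        z ∉ Metric.closedBall (x p) (η p)) ∧
      (∀ p ∈ Finset.range n, ∀ a ∈ Finset.range p, y ∈ Metric.closedBall (x p) (η p) →
        ∃ r ∈ B ∪ R1, PosIn (x p) z (x a) r) := by
    have hev : ∀ᶠ z in 𝓝 y, (∀ p ∈ Finset.range n, y ∉ Metric.closedBall (x p) (η p) →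
          z ∉ Metric.closedBall (x p) (η p)) ∧
        (∀ p ∈ Finset.range n, ∀ a ∈ Finset.range p, y ∈ Metric.closedBall (x p) (η p) →
          ∃ r ∈ B ∪ R1, PosIn (x p) z (x a) r) := by
      refine Filter.Eventually.and ?_ ?_
      · rw [Filter.eventually_all_finset]
        intro p _
        by_cases hyp : y ∈ Metric.closedBall (x p) (η p)
        · exact Eventually.of_forall fun _ h0 => absurd hyp h0
        · have hopen : IsOpen (Metric.closedBall (x p) (η p))ᶜ :=
            Metric.isClosed_closedBall.isOpen_compl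
          filter_upwards [hopen.mem_nhds hyp] with z hz _
          exact hz
      · rw [Filter.eventually_all_finset]
        intro p hp
        rw [Filter.eventually_all_finset]
        intro a ha
        by_cases hyp : y ∈ Metric.closedBall (x p) (η p)
        · obtain ⟨r, hr, h1⟩ := c4 p (Finset.mem_range.1 hp) hyp a (Finset.mem_range.1 ha)
          filter_upwards [posIn_open_q _ _ _ _ h1] with z hz _
          exact ⟨r, hr, hz⟩
        · exact Eventually.of_forall fun _ h0 => absurd h0 hyp
    obtain ⟨η', h1, h2⟩ := Metric.nhds_basis_closedBall.eventually_iff.1 hev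
    exact ⟨η', h1, fun z hz => h2 hz⟩
  obtain ⟨η', d1, d2⟩ := part2
  -- part 3: the ring
  obtain ⟨R2, e1, e2, e3, e4, e5⟩ := ring_exists (P0 ∪ R1) c3 y (Finset.mem_union_left _ hyP0)
    (mPts x n) (hmP0.trans Finset.subset_union_left) hyM η' d1
  have hB1 : B ∪ R1 ⊆ B ∪ (R1 ∪ R2) := Finset.union_subset_union_right Finset.subset_union_left
  have hB0 : B ⊆ B ∪ (R1 ∪ R2) := Finset.subset_union_left
  have hB2 : R2 ⊆ B ∪ (R1 ∪ R2) :=
    Finset.subset_union_right.trans Finset.subset_union_right
  have hup : ∀ i < n, Function.update η n η' i = η i := by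
    intro i hi
    have : i ≠ n := by omega
    simp [this]
  have hupn : Function.update η n η' n = η' := by simp
  refine ⟨R1 ∪ R2, η', ?_, ?_, ?_, ?_, ?_, ?_, ?_, ?_, ?_⟩
  · have := Finset.card_union_le R1 R2
    omega
  · rw [Finset.disjoint_union_left]
    exact ⟨c2, e2.mono_right Finset.subset_union_left⟩
  · have : mPts x (n + 1) ∪ (B ∪ (R1 ∪ R2)) = P0 ∪ R1 ∪ R2 := by
      rw [mPts_succ, hP0]
      simp only [Finset.union_assoc]
      rfl
    rw [this]
    exact e3
  · intro i j hij hj
    rcases Nat.lt_or_eq_of_le (Nat.lt_succ_iff.1 hj) with hj' | rfl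
    · exact h.inj i j hij hj'
    · exact hne i hij
  · intro i hi
    rcases Nat.lt_or_eq_of_le (Nat.lt_succ_iff.1 hi) with hi' | rfl
    · rw [hup i hi']; exact h.pos i hi'
    · rw [hupn]; exact d1
  · intro i j hij hj
    rcases Nat.lt_or_eq_of_le (Nat.lt_succ_iff.1 hj) with hj' | rfl
    · rw [hup i (by omega), hup j hj']
      exact h.sep i j hij hj'
    · rw [hup i hij, hupn]
      intro h1
      rw [Set.disjoint_left]
      intro z hz
      exact (d2 z hz).1 i (Finset.mem_range.2 hij) h1
  · intro a i j hai hij hj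
    rcases Nat.lt_or_eq_of_le (Nat.lt_succ_iff.1 hj) with hj' | rfl
    · rw [hup i (by omega), hup j hj']
      intro h1 z hz
      obtain ⟨r, hr, h2⟩ := h.clu a i j hai hij hj' h1 z hz
      exact ⟨r, hB0 hr, h2⟩
    · rw [hup i hij, hupn]
      intro h1 z hz
      obtain ⟨r, hr, h2⟩ := (d2 z hz).2 i (Finset.mem_range.2 hij) a (Finset.mem_range.2 hai) h1
      exact ⟨r, hB1 hr, h2⟩
  · intro g h' j hg' hh hgh hj hang
    rcases Nat.lt_or_eq_of_le (Nat.lt_succ_iff.1 hj) with hj' | rfl
    · exact hit_mono (h.f1 g h' j hg' hh hgh hj' hang) hB0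
    · have hghx : x g ≠ x h' := by
        rcases lt_or_gt_of_ne hgh with hlt | hlt
        · exact h.inj g h' hlt hh
        · exact (h.inj h' g hlt hg').symm
      exact hit_mono (e4 (x g) (mem_mPts hg') (x h') (mem_mPts hh) hghx hang) hB2
  · intro g h' j hg' hh hgh hj
    rcases Nat.lt_or_eq_of_le (Nat.lt_succ_iff.1 hj) with hj' | rfl
    · rw [hup j hj']
      intro z hz a1 a2
      rcases h.f2 g h' j hg' hh hgh hj' z hz a1 a2 with h1 | h1
      · exact Or.inl (hit_mono h1 hB0)
      · exact Or.inr (hit_mono h1 hB0)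
    · rw [hupn]
      intro z hz a1 a2
      have hghx : x g ≠ x h' := by
        rcases lt_or_gt_of_ne hgh with hlt | hlt
        · exact h.inj g h' hlt hh
        · exact (h.inj h' g hlt hg').symm
      rcases e5 (x g) (mem_mPts hg') (x h') (mem_mPts hh) hghx z hz a1 a2 with h1 | h1
      · exact Or.inl (hit_mono h1 hB2)
      · exact Or.inr (hit_mono h1 hB2)

/-- Five Maker points always span a pierced region. -/
theorem five {x : ℕ → Pt} {η : ℕ → ℝ} {B : Finset Pt} {n : ℕ} (I : Inv x η B n)
    {a b c p v : ℕ} (hab : a < b) (hbc : b < c) (hcp : c < p) (hpv : p < v) (hv : v < n)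
    (H : Set Pt) (ha : x a ∈ H) (hb : x b ∈ H) (hc : x c ∈ H) (hp : x p ∈ H) (hvH : x v ∈ H) :
    ∃ r ∈ B, r ∈ interior (convexHull ℝ H) := by
  by_contra hcon
  have nohit : ∀ q1 ∈ H, ∀ q2 ∈ H, ∀ q3 ∈ H, ¬ Hit B q1 q2 q3 := by
    rintro q1 h1 q2 h2 q3 h3 ⟨r, hr, hr2⟩
    apply hcon
    refine ⟨r, hr, interior_mono (convexHull_mono ?_) hr2⟩
    rintro z (rfl | rfl | rfl)
    · exact h1
    · exact h2
    · exact h3
  have hout : ∀ i j, a < i → i < j → j < n → x i ∈ H → x j ∈ H →
      x j ∉ Metric.closedBall (x i) (η i) := by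
    intro i j hai hij hj hi hjH hmem
    obtain ⟨r, hr, h1⟩ := I.clu a i j hai hij hj hmem (x j)
      (Metric.mem_closedBall_self (I.pos j hj).le)
    exact nohit _ hi _ hjH _ ha ⟨r, hr, h1.interior⟩
  have hvp := hout p v (by omega) hpv hv hp hvH
  have hvc := hout c v (by omega) (by omega) hv hc hvH
  have hpc := hout c p (by omega) hcp (by omega) hc hp
  have A1 : ang (x c - x v) (x p - x v) < Real.pi / 6 := by
    by_contra h0
    exact nohit _ hvH _ hc _ hp (I.f1 c p v (by omega) hpv (by omega) hv (not_lt.1 h0))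
  have A2 : ang (x c - x p) (x a - x p) < Real.pi / 6 := by
    by_contra h0
    exact nohit _ hp _ hc _ ha (I.f1 c a p hcp (by omega) (by omega) (by omega) (not_lt.1 h0))
  have A3 : ang (x a - x c) (x b - x c) < Real.pi / 6 := by
    by_contra h0
    exact nohit _ hc _ ha _ hb (I.f1 a b c (by omega) hbc (by omega) (by omega) (not_lt.1 h0))
  have A4 : ang (x v - x p) (x c - x p) < Real.pi / 6 ∨
      ang (x v - x p) (x a - x p) < Real.pi / 6 := by
    by_contra h0
    rw [not_or, not_lt, not_lt] at h0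
    rcases I.f2 c a p hcp (by omega) (by omega) (by omega) (x v) hvp h0.1 h0.2 with h1 | h1
    · exact nohit _ hp _ hvH _ hc h1
    · exact nohit _ hp _ hvH _ ha h1
  have A5 : ang (x v - x c) (x a - x c) < Real.pi / 6 ∨
      ang (x v - x c) (x b - x c) < Real.pi / 6 := by
    by_contra h0
    rw [not_or, not_lt, not_lt] at h0
    rcases I.f2 a b c (by omega) hbc (by omega) (by omega) (x v) hvc h0.1 h0.2 with h1 | h1
    · exact nohit _ hc _ hvH _ ha h1
    · exact nohit _ hc _ hvH _ hb h1
  have A6 : ang (x p - x c) (x a - x c) < Real.pi / 6 ∨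
      ang (x p - x c) (x b - x c) < Real.pi / 6 := by
    by_contra h0
    rw [not_or, not_lt, not_lt] at h0
    rcases I.f2 a b c (by omega) hbc (by omega) (by omega) (x p) hpc h0.1 h0.2 with h1 | h1
    · exact nohit _ hc _ hp _ ha h1
    · exact nohit _ hc _ hp _ hb h1
  have hpi := Real.pi_pos
  have B1 : ang (x v - x p) (x c - x p) < Real.pi / 3 := by
    rcases A4 with h | h
    · linarith
    · have := ang_triangle (x v - x p) (x a - x p) (x c - x p)
      rw [ang_comm (x a - x p) (x c - x p)] at this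
      linarith
  have A3' : ang (x b - x c) (x a - x c) < Real.pi / 6 := by rw [ang_comm]; exact A3
  have B2 : ang (x p - x c) (x v - x c) < Real.pi / 2 := by
    have t1 := ang_triangle (x p - x c) (x a - x c) (x v - x c)
    have t2 := ang_triangle (x p - x c) (x b - x c) (x v - x c)
    have t3 := ang_triangle (x p - x c) (x b - x c) (x a - x c)
    have t4 := ang_triangle (x p - x c) (x a - x c) (x b - x c)
    have s1 := ang_comm (x a - x c) (x v - x c)
    have s2 := ang_comm (x b - x c) (x v - x c)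
    rcases A5 with h5 | h5
    · rcases A6 with h6 | h6
      · linarith
      · linarith
    · rcases A6 with h6 | h6
      · linarith
      · linarith
  have hsum := ang_sum (x c) (x v) (x p) (by
    intro h0
    exact I.inj c v (by omega) hv h0.symm)
  linarith

/-- No six Maker points with Breaker's set `B` form a hole, even after Maker's next move. -/
theorem no_hole {x : ℕ → Pt} {η : ℕ → ℝ} {B : Finset Pt} {n : ℕ} (I : Inv x η B n) (y : Pt)
    (H : Finset Pt) (hH : H ⊆ insert y (mPts x n)) (hc : 6 ≤ H.card) :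
    ∃ r ∈ B, r ∈ interior (convexHull ℝ (H : Set Pt)) := by
  classical
  set J := (Finset.range n).filter (fun i => x i ∈ H) with hJ
  have h1 : 5 ≤ J.card := by
    have h2 : H.erase y ⊆ J.image x := by
      intro z hz
      rw [Finset.mem_erase] at hz
      have := hH hz.2
      rw [Finset.mem_insert] at this
      rcases this with h3 | h3
      · exact absurd h3 hz.1
      · unfold mPts at h3
        rw [Finset.mem_image] at h3
        obtain ⟨i, hi, h4⟩ := h3
        rw [Finset.mem_image]
        exact ⟨i, Finset.mem_filter.2 ⟨hi, h4 ▸ hz.2⟩, h4⟩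
    have h3 := Finset.card_le_card h2
    have h4 : (J.image x).card ≤ J.card := Finset.card_image_le
    have h5 : H.card - 1 ≤ (H.erase y).card := Finset.pred_card_le_card_erase
    omega
  obtain ⟨J', hJ', hcard⟩ := Finset.exists_subset_card_eq h1
  set e := J'.orderEmbOfFin hcard with he
  have hmem : ∀ i : Fin 5, e i < n ∧ x (e i) ∈ (H : Set Pt) := by
    intro i
    have h2 := hJ' (Finset.orderEmbOfFin_mem J' hcard i)
    rw [hJ, Finset.mem_filter, Finset.mem_range] at h2
    exact h2
  have hlt : ∀ i j : Fin 5, i < j → e i < e j := fun i j hij => e.strictMono hij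
  exact five I (hlt 0 1 (by decide)) (hlt 1 2 (by decide)) (hlt 2 3 (by decide))
    (hlt 3 4 (by decide)) (hmem 4).1 (H : Set Pt) (hmem 0).2 (hmem 1).2 (hmem 2).2 (hmem 3).2
    (hmem 4).2

/-- Breaker has a winning strategy in the bichromatic Maker-Breaker `k`-hole game with bias
`1 : 15` for every `k ≥ 6`. -/
theorem result : ∀ k : ℕ, 6 ≤ k → BreakerWins k 15 := by
  intro k hk
  refine breakerWins_of_inv (S := ℕ × (ℕ → Pt) × (ℕ → ℝ) × Finset Pt) k 15
    (0, (fun _ => (0, 0)), (fun _ => 1), ∅) (fun st => mPts st.2.1 st.1) (fun st => st.2.2.2)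
    (fun st => Inv st.2.1 st.2.2.1 st.2.2.2 st.1) ?_ ?_ ?_ ?_ ?_ ?_
  · refine ⟨?_, ?_, ?_, ?_, ?_, ?_, ?_⟩
    · intro p hp
      simp [mPts] at hp
    · intro i j _ hj; omega
    · intro i hi; omega
    · intro i j _ hj; omega
    · intro a i j _ _ hj; omega
    · intro g h j _ _ _ hj; omega
    · intro g h j _ _ _ hj; omega
  · simp [mPts]
  · rfl
  · rintro ⟨n, x, η, B⟩ I y hy hg
    simp only at I hy hg ⊢
    set x' := Function.update x n y with hx'
    have hm : mPts x' n = mPts x n := mPts_update x n y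
    have hxn : x' n = y := by simp [hx']
    have I' : Inv x' η B n := I.congr
      (by
        intro i hi
        have : i ≠ n := by omega
        simp [hx', this])
      (fun _ _ => rfl)
    obtain ⟨R, η', r1, r2, r3⟩ := step x' η B n I' (by rw [hm, hxn]; exact hy)
      (by rw [hm, hxn]; exact hg)
    refine ⟨((n + 1, x', Function.update η n η', B ∪ R), R), r3, ?_, rfl, r1, ?_, ?_⟩
    · show mPts x' (n + 1) = insert y (mPts x n)
      rw [mPts_succ, hm, hxn]
    · rw [hm, hxn] at r2; exact r2
    · have := r3.gp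
      rw [mPts_succ, hm, hxn] at this
      exact this
  · rintro ⟨n, x, η, B⟩ I y ⟨H, hH, h1, h2, _, h4⟩
    simp only at I hH h1 h4
    obtain ⟨r, hr, hr2⟩ := no_hole I y H hH (by omega)
    exact h4 r (Finset.mem_union_right _ hr) hr2
  · rintro ⟨n, x, η, B⟩ I ⟨H, hH, h1, h2, _, h4⟩
    simp only at I hH h1 h4
    obtain ⟨r, hr, hr2⟩ := no_hole I (0, 0) H (hH.trans (Finset.subset_insert _ _)) (by omega)
    exact h4 r (Finset.mem_union_right _ hr) hr2

end Pool.Agent.Results.MP_7f1c6c_co.SixHoles
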